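import Pool.Agent.H62.Upper
import Pool.Agent.H62.Lower

/-!
The connected bipartite Turan number of the path on `k` vertices is
`⌊(k - 1) / 2⌋ * n + O_k(1)`.
-/

namespace Pool.Agent.Results.MP_792a66_co.PathConn

open Finset Filter Asymptotics Pool.Agent.H62.PathTuran

/-- The set of all numbers of edges of connected spanning subgraphs of `K_{n,n}` which contain no
path on `k` vertices. -/
def edgeCounts (n k : ℕ) : Set ℕ :=
  {e | ∃ G : SimpleGraph (Fin n ⊕ Fin n), G ≤ completeBipartiteGraph (Fin n) (Fin n) ∧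
    G.Connected ∧ (SimpleGraph.pathGraph k).Free G ∧ G.edgeSet.ncard = e}

/-- `ex_{b,c}(n, P_k)`, the largest number of edges. -/
noncomputable def exbc (n k : ℕ) : ℕ := sSup (edgeCounts n k)

lemma length_lt_of_free {V : Type*} (G : SimpleGraph V) {k : ℕ}
    (h : (SimpleGraph.pathGraph k).Free G) (l : List V) (hl : l.IsChain G.Adj) (hn : l.Nodup) :
    l.length < k := by
  by_contra hcon
  push Not at hcon
  apply h
  let f : Fin k → V := fun i => l[i.1]'(lt_of_lt_of_le i.2 hcon)
  have hadj : ∀ i j : Fin k, i.1 + 1 = j.1 → G.Adj (f i) (f j) := by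
    intro i j hij
    rw [List.isChain_iff_getElem] at hl
    have h1 := hl i.1 (by have := j.2; omega)
    simp only [f]
    convert h1 using 2
    exact hij.symm
  refine ⟨⟨⟨f, ?_⟩, ?_⟩⟩
  · intro i j hij
    rw [SimpleGraph.pathGraph_adj] at hij
    rcases hij with h1 | h1
    · exact hadj i j h1
    · exact (hadj j i h1).symm
  · intro i j hij
    have h1 : l[i.1]'(lt_of_lt_of_le i.2 hcon) = l[j.1]'(lt_of_lt_of_le j.2 hcon) := hij
    rw [hn.getElem_inj_iff] at h1
    exact Fin.ext h1

lemma free_of_length_lt {V : Type*} (G : SimpleGraph V) {k : ℕ}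
    (h : ∀ l : List V, l.IsChain G.Adj → l.Nodup → l.length < k) :
    (SimpleGraph.pathGraph k).Free G := by
  rintro ⟨f⟩
  have h1 := h (List.ofFn f) ?_ ?_
  · rw [List.length_ofFn] at h1
    exact lt_irrefl _ h1
  · rw [List.isChain_iff_getElem]
    intro i hi
    rw [List.getElem_ofFn, List.getElem_ofFn]
    apply f.toHom.map_adj
    rw [SimpleGraph.pathGraph_adj]
    exact Or.inl rfl
  · exact List.nodup_ofFn.2 f.injective

lemma bipartite_side {n : ℕ} {G : SimpleGraph (Fin n ⊕ Fin n)}
    (hG : G ≤ completeBipartiteGraph (Fin n) (Fin n)) (a b : Fin n ⊕ Fin n) (h : G.Adj a b) :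
    lside a ≠ lside b := by
  have h1 := hG h
  rcases a with a | a <;> rcases b with b | b <;> simp [completeBipartiteGraph] at h1 <;>
    simp [lside]

lemma side_card {n : ℕ} (b : Bool) :
    (univ.filter (fun x : Fin n ⊕ Fin n => lside x = b)).card = n := by
  cases b
  · have : univ.filter (fun x : Fin n ⊕ Fin n => lside x = false) = univ.image Sum.inr := by
      ext x
      rw [mem_filter, mem_image]
      rcases x with a | a <;> simp [lside]
    rw [this, card_image_of_injective _ Sum.inr_injective, card_univ, Fintype.card_fin]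
  · have : univ.filter (fun x : Fin n ⊕ Fin n => lside x = true) = univ.image Sum.inl := by
      ext x
      rw [mem_filter, mem_image]
      rcases x with a | a <;> simp [lside]
    rw [this, card_image_of_injective _ Sum.inl_injective, card_univ, Fintype.card_fin]

lemma upper_bound (k : ℕ) (n e : ℕ) (he : e ∈ edgeCounts n k) :
    e ≤ (k - 1) / 2 * n + 2 * (RR k * k) := by
  obtain ⟨G, hG1, hG2, hG3, rfl⟩ := he
  exact upper G lside (bipartite_side hG1) hG2 k ((k - 1) / 2) n (by omega)
    (length_lt_of_free G hG3) side_card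

lemma lower_bound (k : ℕ) (hk : 5 ≤ k) (n : ℕ) (hn : k ≤ 2 * n) :
    ∃ e ∈ edgeCounts n k, (k - 1) / 2 * n ≤ e + ((k - 1) / 2 - 1) := by
  refine ⟨_, ⟨lowerGraph n ((k - 1) / 2), ?_, lower_connected (by omega) (by omega), ?_, rfl⟩,
    lower_edges (by omega) (by omega)⟩
  · intro a b hab
    rcases a with a | a <;> rcases b with b | b
    · exact absurd hab id
    · simp [completeBipartiteGraph]
    · simp [completeBipartiteGraph]
    · exact absurd hab id
  · apply free_of_length_lt
    intro l hl hn'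
    have := lower_path (n := n) (M := (k - 1) / 2) (by omega) l hl hn'
    omega

theorem result (k : ℕ) (hk : 5 ≤ k) :
    (∀ n : ℕ, k ≤ 2 * n → IsGreatest (edgeCounts n k) (exbc n k)) ∧
    (∃ C : ℕ, ∀ n : ℕ, k ≤ 2 * n →
      (k - 1) / 2 * n ≤ exbc n k + ((k - 1) / 2 - 1) ∧ exbc n k ≤ (k - 1) / 2 * n + C) ∧
    (fun n : ℕ => (exbc n k : ℝ)) ~[atTop] (fun n : ℕ => (((k - 1) / 2 : ℕ) : ℝ) * n) := by
  have hgr : ∀ n : ℕ, k ≤ 2 * n → IsGreatest (edgeCounts n k) (exbc n k) := by
    intro n hn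
    obtain ⟨e, he, -⟩ := lower_bound k hk n hn
    have hbdd : BddAbove (edgeCounts n k) :=
      ⟨(k - 1) / 2 * n + 2 * (RR k * k), fun e he => upper_bound k n e he⟩
    exact ⟨Nat.sSup_mem ⟨e, he⟩ hbdd, fun x hx => le_csSup hbdd hx⟩
  have hC : ∀ n : ℕ, k ≤ 2 * n → (k - 1) / 2 * n ≤ exbc n k + ((k - 1) / 2 - 1) ∧
      exbc n k ≤ (k - 1) / 2 * n + 2 * (RR k * k) := by
    intro n hn
    obtain ⟨e, he, hle⟩ := lower_bound k hk n hn
    have h1 := (hgr n hn).2 he
    exact ⟨by omega, upper_bound k n _ (hgr n hn).1⟩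
  refine ⟨hgr, ⟨2 * (RR k * k), hC⟩, ?_⟩
  set M := (k - 1) / 2 with hM
  set C := 2 * (RR k * k) with hCdef
  have hM2 : 2 ≤ M := by omega
  rw [IsEquivalent, isLittleO_iff]
  intro c hc
  obtain ⟨N, hN⟩ := exists_nat_gt (((M : ℝ) + C) / (c * M))
  filter_upwards [eventually_ge_atTop (max N k)] with n hn
  have hnN : (N : ℝ) ≤ n := by exact_mod_cast (le_max_left N k).trans hn
  have hnk : k ≤ n := (le_max_right N k).trans hn
  obtain ⟨h1, h2⟩ := hC n (by omega)
  have hMpos : (0 : ℝ) < M := by exact_mod_cast (by omega : 0 < M)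
  have h1' : (M : ℝ) * n ≤ exbc n k + M := by
    have : M * n ≤ exbc n k + M := h1.trans (by omega)
    exact_mod_cast this
  have h2' : (exbc n k : ℝ) ≤ M * n + C := by exact_mod_cast h2
  have h3 : (M : ℝ) + C ≤ c * (M * n) := by
    have := hN.le.trans hnN
    rw [div_le_iff₀ (by positivity)] at this
    linarith [this]
  have hCnn : (0 : ℝ) ≤ C := Nat.cast_nonneg C
  have hnn : (0 : ℝ) ≤ (M : ℝ) * n := by positivity
  simp only [Pi.sub_apply, Real.norm_eq_abs]
  rw [abs_of_nonneg hnn]
  refine le_trans ?_ h3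
  rw [abs_le]
  constructor <;> linarith

end Pool.Agent.Results.MP_792a66_co.PathConn
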